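import Pool.Agent.Helper426_Tach.Bdd

set_option autoImplicit false
open CategoryTheory Pool.Agent.Helper426Tach

namespace Pool.Agent.Helper426AR

/-- IsBar φ x π: the additive map π is a φ-semilinear surjection with kernel x N. -/
structure IsBar {R S : Type} [CommRing R] [CommRing S] (φ : R →+* S) (x : R)
    {N : Type} [AddCommGroup N] [Module R N] {N' : Type} [AddCommGroup N'] [Module S N']
    (π : N →+ N') : Prop where
  smul : ∀ (r : R) (n : N), π (r • n) = φ r • π n
  surj : Function.Surjective π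
  ker : ∀ n, π n = 0 ↔ ∃ m, n = x • m

/-- Rg x N: x is regular on N. -/
def Rg {R : Type} [CommRing R] (x : R) (N : Type) [AddCommGroup N] [Module R N] : Prop :=
  ∀ n : N, x • n = 0 → n = 0

section
variable {R S : Type} [CommRing R] [CommRing S] {φ : R →+* S} {x : R}

theorem desc (hφs : Function.Surjective φ) (hx : φ x = 0)
    {N : Type} [AddCommGroup N] [Module R N] {N' : Type} [AddCommGroup N'] [Module S N']
    {X : Type} [AddCommGroup X] [Module S X] {π : N →+ N'} (hπ : IsBar φ x π) (u : N →+ X)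
    (hu : ∀ (r : R) n, u (r • n) = φ r • u n) : ∃ u' : N' →ₗ[S] X, ∀ n, u' (π n) = u n := by
  have hker : ∀ n, π n = 0 → u n = 0 := by
    intro n hn
    obtain ⟨m, rfl⟩ := (hπ.ker n).mp hn
    rw [hu, hx, zero_smul]
  have hw : ∀ a b, π a = π b → u a = u b := by
    intro a b hab
    have h1 : π (a - b) = 0 := by rw [map_sub, hab, sub_self]
    have h2 := hker _ h1
    rw [map_sub] at h2
    exact sub_eq_zero.mp h2
  let c : N' → N := fun y => (hπ.surj y).choose
  have hc : ∀ y, π (c y) = y := fun y => (hπ.surj y).choose_spec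
  refine ⟨{ toFun := fun y => u (c y), map_add' := ?_, map_smul' := ?_ }, ?_⟩
  · intro a b
    rw [← map_add]
    apply hw
    rw [map_add, hc, hc, hc]
  · intro s a
    obtain ⟨r, rfl⟩ := hφs s
    change u (c (φ r • a)) = φ r • u (c a)
    rw [← hu]
    apply hw
    rw [hπ.smul, hc, hc]
  · intro n
    exact hw _ _ (hc _)

theorem ind (hφs : Function.Surjective φ) (hx : φ x = 0)
    {N : Type} [AddCommGroup N] [Module R N] {N' : Type} [AddCommGroup N'] [Module S N']
    {M : Type} [AddCommGroup M] [Module R M] {M' : Type} [AddCommGroup M'] [Module S M']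
    {π : N →+ N'} (hπ : IsBar φ x π) {ρ : M →+ M'} (hρ : IsBar φ x ρ) (f : N →ₗ[R] M) :
    ∃ f' : N' →ₗ[S] M', ∀ n, f' (π n) = ρ (f n) := by
  refine desc hφs hx hπ (ρ.comp f.toAddMonoidHom) fun r n => ?_
  change ρ (f (r • n)) = φ r • ρ (f n)
  rw [map_smul, hρ.smul]

/-- isomorphic modules have isomorphic reductions -/
theorem bar_iso (hφs : Function.Surjective φ) (hx : φ x = 0)
    {N : Type} [AddCommGroup N] [Module R N] {N' : Type} [AddCommGroup N'] [Module S N']
    {M : Type} [AddCommGroup M] [Module R M] {M' : Type} [AddCommGroup M'] [Module S M']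
    {π : N →+ N'} (hπ : IsBar φ x π) {ρ : M →+ M'} (hρ : IsBar φ x ρ) (e : N ≃ₗ[R] M) :
    Nonempty (N' ≃ₗ[S] M') := by
  obtain ⟨f, hf⟩ := ind hφs hx hπ hρ e.toLinearMap
  obtain ⟨g, hg⟩ := ind hφs hx hρ hπ e.symm.toLinearMap
  refine ⟨LinearEquiv.ofLinear f g ?_ ?_⟩
  · refine LinearMap.ext fun m => ?_
    obtain ⟨m, rfl⟩ := hρ.surj m
    change f (g (ρ m)) = ρ m
    rw [hg, hf]
    change ρ (e (e.symm m)) = ρ m
    rw [e.apply_symm_apply]
  · refine LinearMap.ext fun m => ?_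
    obtain ⟨m, rfl⟩ := hπ.surj m
    change g (f (π m)) = π m
    rw [hf, hg]
    change π (e.symm (e m)) = π m
    rw [e.symm_apply_apply]

theorem pi_bar {n : ℕ} {X X' : Fin n → Type} [∀ i, AddCommGroup (X i)] [∀ i, Module R (X i)]
    [∀ i, AddCommGroup (X' i)] [∀ i, Module S (X' i)] (π : ∀ i, X i →+ X' i)
    (hπ : ∀ i, IsBar φ x (π i)) :
    IsBar φ x (N := ∀ i, X i) (N' := ∀ i, X' i)
      { toFun := fun v i => π i (v i), map_zero' := funext fun i => map_zero (π i),
        map_add' := fun v w => funext fun i => map_add (π i) (v i) (w i) } where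
  smul r v := funext fun i => (hπ i).smul r (v i)
  surj v := ⟨fun i => ((hπ i).surj (v i)).choose, funext fun i => ((hπ i).surj (v i)).choose_spec⟩
  ker v := by
    constructor
    · intro h
      have h1 : ∀ i, ∃ m, v i = x • m := fun i => ((hπ i).ker (v i)).mp (congrFun h i)
      choose m hm using h1
      exact ⟨m, funext hm⟩
    · rintro ⟨m, rfl⟩
      exact funext fun i => ((hπ i).ker _).mpr ⟨m i, rfl⟩

/-- reduction of short exact sequences -/
theorem bar_ses {X Y Z : ModuleCat.{0} R} {X' Y' Z' : ModuleCat.{0} S} {πX : X →+ X'}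
    {πY : Y →+ Y'} {πZ : Z →+ Z'} (hX : IsBar φ x πX) (hY : IsBar φ x πY) (hZ : IsBar φ x πZ)
    (f : X →ₗ[R] Y) (g : Y →ₗ[R] Z) (h : SES f g) (hr : Rg x Z) (hrY : Rg x Y)
    (f' : X' →ₗ[S] Y') (g' : Y' →ₗ[S] Z') (hf' : ∀ a, f' (πX a) = πY (f a))
    (hg' : ∀ a, g' (πY a) = πZ (g a)) : SES f' g' := by
  obtain ⟨hf, hfg, hg⟩ := h
  refine ⟨?_, ?_, ?_⟩
  · rw [injective_iff_map_eq_zero]
    intro a ha
    obtain ⟨a, rfl⟩ := hX.surj a
    rw [hf'] at ha
    obtain ⟨p, hp⟩ := (hY.ker _).mp ha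
    have h1 : x • g p = 0 := by
      rw [← map_smul, ← hp]
      exact (hfg _).mpr ⟨a, rfl⟩
    obtain ⟨y, rfl⟩ := (hfg p).mp (hr _ h1)
    refine (hX.ker a).mpr ⟨y, hf ?_⟩
    rw [hp, map_smul]
  · intro b
    constructor
    · intro hb
      obtain ⟨b, rfl⟩ := hY.surj b
      rw [hg'] at hb
      obtain ⟨z, hz⟩ := (hZ.ker _).mp hb
      obtain ⟨p, rfl⟩ := hg z
      have h1 : g (b - x • p) = 0 := by rw [map_sub, map_smul, hz, sub_self]
      obtain ⟨a, ha⟩ := (hfg _).mp h1
      refine ⟨πX a, ?_⟩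
      rw [hf', ha, map_sub, (hY.ker (x • p)).mpr ⟨p, rfl⟩, sub_zero]
    · rintro ⟨a, rfl⟩
      obtain ⟨a, rfl⟩ := hX.surj a
      rw [hf', hg', (hfg _).mpr ⟨a, rfl⟩, map_zero]
  · intro c
    obtain ⟨c, rfl⟩ := hZ.surj c
    obtain ⟨b, rfl⟩ := hg c
    exact ⟨πY b, hg' b⟩

/-- the reduction of R -/
theorem bar_self (hφs : Function.Surjective φ) (hφk : ∀ r, φ r = 0 ↔ ∃ m, r = x * m) :
    IsBar φ x (N := R) (N' := S) φ.toAddMonoidHom where
  smul r n := by
    change φ (r * n) = φ r * φ n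
    exact map_mul φ r n
  surj := hφs
  ker n := hφk n

theorem bar_proj (hφs : Function.Surjective φ) (hφk : ∀ r, φ r = 0 ↔ ∃ m, r = x * m)
    {P : Type} [AddCommGroup P] [Module R P] {P' : Type} [AddCommGroup P'] [Module S P']
    {π : P →+ P'} (hπ : IsBar φ x π) (hf : Module.Finite R P) (hP : Module.Projective R P) :
    Module.Finite S P' ∧ Module.Projective S P' := by
  have hx : φ x = 0 := (hφk x).mpr ⟨1, (mul_one x).symm⟩
  obtain ⟨n, a, ha⟩ := Module.Finite.exists_fin' R P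
  obtain ⟨b, hb⟩ := Module.projective_lifting_property a LinearMap.id ha
  have hfree := pi_bar (n := n) (fun _ => φ.toAddMonoidHom) (fun _ => bar_self hφs hφk)
  obtain ⟨a', ha'⟩ := ind hφs hx hfree hπ a
  obtain ⟨b', hb'⟩ := ind hφs hx hπ hfree b
  have hab : a' ∘ₗ b' = LinearMap.id := by
    refine LinearMap.ext fun p => ?_
    obtain ⟨p, rfl⟩ := hπ.surj p
    change a' (b' (π p)) = π p
    rw [hb', ha', show a (b p) = p from LinearMap.congr_fun hb p]
  refine ⟨Module.Finite.of_surjective a' fun p => ⟨b' p, LinearMap.congr_fun hab p⟩, ?_⟩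
  exact Module.Projective.of_split b' a' hab

end

/-- existence of reductions -/
theorem exists_bar {R : Type} [CommRing R] (x : R) (N : ModuleCat.{0} R) :
    ∃ (N' : ModuleCat.{0} (R ⧸ Ideal.span {x})) (π : N →+ N'),
      IsBar (Ideal.Quotient.mk (Ideal.span {x})) x π := by
  refine ⟨ModuleCat.of (R ⧸ Ideal.span {x})
    (N ⧸ (Ideal.span {x} • ⊤ : Submodule R N)),
    (Submodule.mkQ (Ideal.span {x} • ⊤ : Submodule R N)).toAddMonoidHom, ?_, ?_, ?_⟩
  · intro r n
    rfl
  · exact Submodule.mkQ_surjective _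
  · intro n
    change Submodule.mkQ (Ideal.span {x} • ⊤ : Submodule R N) n = 0 ↔ _
    rw [Submodule.mkQ_apply, Submodule.Quotient.mk_eq_zero,
      Submodule.ideal_span_singleton_smul, Submodule.mem_smul_pointwise_iff_exists]
    constructor
    · rintro ⟨m, -, rfl⟩
      exact ⟨m, rfl⟩
    · rintro ⟨m, rfl⟩
      exact ⟨m, trivial, rfl⟩

theorem mk_ker {R : Type} [CommRing R] (x : R) (r : R) :
    Ideal.Quotient.mk (Ideal.span {x}) r = 0 ↔ ∃ m, r = x * m := by
  rw [Ideal.Quotient.eq_zero_iff_mem, Ideal.mem_span_singleton]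
  exact Iff.rfl

end Pool.Agent.Helper426AR
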