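import Pool.Agent.Helper426_AR.Tach
import Pool.Agent.Helper426_TauT.ITDefs

set_option autoImplicit false
open CategoryTheory Pool.Agent.Helper426Tach Pool.Agent.Helper426TauT

namespace Pool.Agent.Helper426AR

/-- CMOn R N G: either R is artinian, or there is a nonunit x which is regular on R and on all the
modules G a, and R / (x) with the modules G a / x G a is of this kind. That is, some sequence
x_1, ..., x_n in R is regular on R and on all the G a, and R / (x_1, ..., x_n) is artinian. -/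
inductive CMOn : (R : Type) → [CommRing R] → (N : ℕ) → (Fin N → ModuleCat.{0} R) → Prop
  | base (R : Type) [CommRing R] (h : IsArtinianRing R) (N : ℕ) (G : Fin N → ModuleCat.{0} R) :
      CMOn R N G
  | step (R : Type) [CommRing R] (x : R) (hx : ∀ r : R, x * r = 0 → r = 0) (hu : ¬ IsUnit x)
      (N : ℕ) (G : Fin N → ModuleCat.{0} R) (hG : ∀ (a : Fin N) (w : G a), x • w = 0 → w = 0)
      (h : CMOn (R ⧸ Ideal.span {x}) N (fun a => ModuleCat.of (R ⧸ Ideal.span {x})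
        (G a ⧸ (Ideal.span {x} • ⊤ : Submodule R (G a))))) : CMOn R N G

theorem bk_bar {R : Type} [CommRing R] {x : R} {N : ℕ} {G : Fin N → ModuleCat.{0} R}
    {G' : Fin N → ModuleCat.{0} (R ⧸ Ideal.span {x})} (ρ : ∀ a, G a →+ G' a)
    (hρ : ∀ a, IsBar (Ideal.Quotient.mk (Ideal.span {x})) x (ρ a)) (c : Fin N → ℕ) :
    ∃ π : Bk G c →+ Bk G' c, IsBar (Ideal.Quotient.mk (Ideal.span {x})) x π :=
  ⟨_, pi_bar (X := fun a => Fin (c a) → G a) (X' := fun a => Fin (c a) → G' a) _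
    fun a => pi_bar (n := c a) (fun _ => ρ a) fun _ => hρ a⟩

theorem bar_two {R : Type} [CommRing R] {x : R} {N : ℕ} {G : Fin N → ModuleCat.{0} R}
    {G' : Fin N → ModuleCat.{0} (R ⧸ Ideal.span {x})} (ρ : ∀ a, G a →+ G' a)
    (hρ : ∀ a, IsBar (Ideal.Quotient.mk (Ideal.span {x})) x (ρ a)) (hG : ∀ a, Rg x (G a))
    {Y : ModuleCat.{0} R} {Y' : ModuleCat.{0} (R ⧸ Ideal.span {x})} {π : Y →+ Y'}
    (hπ : IsBar (Ideal.Quotient.mk (Ideal.span {x})) x π) (hY : Rg x Y) (h : TwoStep G Y) :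
    TwoStep G' Y' := by
  have hφs : Function.Surjective (Ideal.Quotient.mk (Ideal.span {x})) :=
    Ideal.Quotient.mk_surjective
  have hφx : Ideal.Quotient.mk (Ideal.span {x}) x = 0 := (mk_ker x x).mpr ⟨1, (mul_one x).symm⟩
  obtain ⟨c1, c0, f, g, hS⟩ := h
  obtain ⟨π1, h1⟩ := bk_bar ρ hρ c1
  obtain ⟨π0, h0⟩ := bk_bar ρ hρ c0
  obtain ⟨f', hf'⟩ := ind hφs hφx h1 h0 f
  obtain ⟨g', hg'⟩ := ind hφs hφx h0 hπ g
  have hr : Rg x (Bk G c0) := fun v hv =>
    funext fun a => funext fun i => hG a (v a i) (congrFun (congrFun hv a) i)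
  exact ⟨c1, c0, f', g', bar_ses h1 h0 hπ f g hS hY hr f' g' hf' hg'⟩

theorem it_main {R : Type} [CommRing R] {N : ℕ} {G : Fin N → ModuleCat.{0} R}
    (h : CMOn R N G) :
    ∀ [IsLocalRing R] [IsNoetherianRing R], (∀ a, Module.Finite R (G a)) →
      ∀ Z : ℕ → ModuleCat.{0} R, Chain Z →
      Module.Finite R (Z 0) → (∀ m : ℕ, ∃ j : ℕ, m ≤ j ∧ TwoStep G (Z j)) →
      (∀ i, 1 ≤ i → Subsingleton (Abelian.Ext.{0} (Z 0) (Z 0) i)) →
      (∀ i, 1 ≤ i → Subsingleton (Abelian.Ext.{0} (Z 0) (ModuleCat.of R R) i)) →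
      Module.Projective R (Z 0) := by
  induction h with
  | base R hartR N G =>
    intro _ _ hGf Z hZ hZf hd hAA hAR
    classical
    have hart : IsArtinianRing (Subring.center R) := by
      let e : R →+* Subring.center R :=
        { toFun := fun r => ⟨r, Subring.mem_center_iff.mpr fun s => mul_comm s r⟩
          map_one' := rfl
          map_mul' := fun _ _ => rfl
          map_zero' := rfl
          map_add' := fun _ _ => rfl }
      have he : Function.Surjective e := fun c => ⟨c.1, rfl⟩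
      exact he.isArtinianRing
    have hfin : Module.Finite (Subring.center R) R := by
      refine Module.Finite.of_surjective (Algebra.linearMap (Subring.center R) R) fun r => ?_
      exact ⟨⟨r, Subring.mem_center_iff.mpr fun s => mul_comm s r⟩, rfl⟩
    let J0 : Set ℕ := {j | 1 ≤ j ∧ TwoStep G (Z j)}
    have hJ0 : J0.Infinite := by
      intro hfinite
      obtain ⟨b, hb⟩ := hfinite.bddAbove
      obtain ⟨j, hj, hY⟩ := hd (b + 1)
      have := hb (⟨by omega, hY⟩ : j ∈ J0)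
      omega
    obtain ⟨S, hSJ0, hScard⟩ := hJ0.exists_subset_card_eq (2 * N + 1)
    let J := S.sup id
    have hSJ : ∀ j ∈ S, 1 ≤ j ∧ j ≤ J := fun j hj =>
      ⟨(hSJ0 hj).1, Finset.le_sup (f := id) hj⟩
    refine main_syz R hart hfin (Z 0) hZf N G hGf S J (by omega) hSJ ?_ (fun i hi _ => hAA i hi)
      (fun i hi _ => hAR i hi)
    intro j hj W hW
    obtain ⟨hj1, c1, c0, f, g, hfg⟩ := hSJ0 hj
    obtain ⟨P, Q, hP1, hP2, hQ1, hQ2, ⟨E2⟩⟩ := syz_schanuel (isSyz_of_syz hW) (chain_syz hZ j)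
    let ff : ((∀ a, Fin (c1 a) → G a) × ModuleCat.of R PUnit.{1}) →ₗ[R]
        ((∀ a, Fin (c0 a) → G a) × Q) :=
      (LinearMap.inl R (Bk G c0) Q) ∘ₗ f ∘ₗ
        (LinearMap.fst R (Bk G c1) (ModuleCat.of R PUnit.{1}))
    let gg : ((∀ a, Fin (c0 a) → G a) × Q) →ₗ[R] (W × P) :=
      E2.symm.toLinearMap ∘ₗ (LinearMap.prodMap (M := Bk G c0) g (LinearMap.id : Q →ₗ[R] Q))
    have hff : ∀ z, ff z = (f z.1, 0) := fun z => rfl
    have hgg : ∀ z, gg z = E2.symm (g z.1, z.2) := fun z => rfl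
    have hD1 : Module.Finite R PUnit.{1} := inferInstance
    refine ⟨P, Q, ModuleCat.of R PUnit.{1}, c0, c1, ff, gg, hP1, hP2, hQ1, hD1,
      ?_, ?_, ?_, ?_, ?_⟩
    · intro t ht _
      obtain ⟨t, rfl⟩ : ∃ t', t = t' + 1 := ⟨t - 1, by omega⟩
      exact ez_fgproj (hAR (t + 1) (by omega)) hQ2 hQ1
    · intro t ht _
      obtain ⟨t, rfl⟩ : ∃ t', t = t' + 1 := ⟨t - 1, by omega⟩
      refine ez_injective ?_ t
      change Module.Injective R PUnit.{1}
      exact ⟨fun _ _ _ _ _ _ _ _ _ => ⟨0, fun x => Subsingleton.elim _ _⟩⟩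
    · intro u v huv
      rw [hff, hff] at huv
      exact Prod.ext (hfg.1 (congrArg Prod.fst huv)) (Subsingleton.elim _ _)
    · intro y
      rw [hgg]
      constructor
      · intro hy
        have h1 : ((g y.1, y.2) : Z j × Q) = 0 := E2.symm.map_eq_zero_iff.mp hy
        obtain ⟨v, hv⟩ := (hfg.2.1 y.1).mp (congrArg Prod.fst h1)
        refine ⟨(v, PUnit.unit), ?_⟩
        rw [hff]
        exact Prod.ext hv (congrArg Prod.snd h1).symm
      · rintro ⟨u, rfl⟩
        rw [hff]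
        change E2.symm (g (f u.1), 0) = 0
        rw [(hfg.2.1 _).mpr ⟨_, rfl⟩]
        exact E2.symm.map_zero
    · intro z
      obtain ⟨v, hv⟩ := hfg.2.2 (E2 z).1
      refine ⟨(v, (E2 z).2), ?_⟩
      rw [hgg]
      change E2.symm (g v, (E2 z).2) = z
      rw [hv]
      exact E2.symm_apply_apply z
  | step R x hx hu N G hG h ih =>
    intro hlocR hnoeR hGf Z hZ hZf hd hAA hAR
    have hφs : Function.Surjective (Ideal.Quotient.mk (Ideal.span {x})) :=
      Ideal.Quotient.mk_surjective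
    have hφx : Ideal.Quotient.mk (Ideal.span {x}) x = 0 :=
      (mk_ker x x).mpr ⟨1, (mul_one x).symm⟩
    have hItop : Ideal.span {x} ≠ ⊤ := by
      intro h
      exact hu (Ideal.span_singleton_eq_top.mp h)
    have hnt : Nontrivial (R ⧸ Ideal.span {x}) := Ideal.Quotient.nontrivial_iff.mpr hItop
    have hloc : IsLocalRing (R ⧸ Ideal.span {x}) :=
      IsLocalRing.of_surjective' (Ideal.Quotient.mk (Ideal.span {x})) hφs
    have hnoe : IsNoetherianRing (R ⧸ Ideal.span {x}) := inferInstance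
    have hxR : Rg x R := hx
    choose P f g hPf hPp hS using hZ
    have hPr : ∀ j, Rg x (P j) := fun j => rg_proj hxR (hPf j) (hPp j)
    have hZr : ∀ j, Rg x (Z (j + 1)) := fun j => rg_sub (f j) (hS j).1 (hPr j)
    choose Z' π hπ using fun j => exists_bar x (Z (j + 1))
    have hZ1f : Module.Finite R (Z 1) := Module.Finite.of_injective (f 0) (hS 0).1
    have hZ' : Chain Z' := by
      intro j
      obtain ⟨P', ρ, hρ⟩ := exists_bar x (P (j + 1))
      obtain ⟨f', hf'⟩ := ind hφs hφx (hπ (j + 1)) hρ (f (j + 1))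
      obtain ⟨g', hg'⟩ := ind hφs hφx hρ (hπ j) (g (j + 1))
      obtain ⟨h1, h2⟩ := bar_proj hφs (mk_ker x) hρ (hPf (j + 1)) (hPp (j + 1))
      exact ⟨P', f', g', h1, h2, bar_ses (hπ (j + 1)) hρ (hπ j) _ _ (hS (j + 1)) (hZr j)
        (hPr (j + 1)) f' g' hf' hg'⟩
    have hZ'f : Module.Finite (R ⧸ Ideal.span {x}) (Z' 0) := by
      obtain ⟨n, a, ha⟩ := Module.Finite.exists_fin' R (Z 1)
      obtain ⟨a', ha'⟩ := bar_gen a ha (hπ 0)
      exact Module.Finite.of_surjective a' ha'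
    have hAR1 : ∀ i, 1 ≤ i → Subsingleton (Abelian.Ext.{0} (Z 1) (ModuleCat.of R R) i) := by
      intro i hi
      obtain ⟨i, rfl⟩ : ∃ i', i = i' + 1 := ⟨i - 1, by omega⟩
      exact ez_contra1 (f 0) (g 0) (hS 0).1 (hS 0).2.1 (hS 0).2.2 (ez_projective (hPp 0) i)
        (hAR (i + 1 + 1) (by omega))
    have hAA1 : ∀ i, 1 ≤ i → Subsingleton (Abelian.Ext.{0} (Z 1) (Z 1) i) := by
      intro i hi
      obtain ⟨i, rfl⟩ : ∃ i', i = i' + 1 := ⟨i - 1, by omega⟩
      refine ez_contra1 (f 0) (g 0) (hS 0).1 (hS 0).2.1 (hS 0).2.2 (ez_projective (hPp 0) i) ?_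
      exact ez_cov1 (f 0) (g 0) (hS 0).1 (hS 0).2.1 (hS 0).2.2
        (ez_fgproj (hAR (i + 1 + 1) (by omega)) (hPp 0) (hPf 0)) (hAA (i + 1) (by omega))
    have hG'f : ∀ a, Module.Finite (R ⧸ Ideal.span {x}) (ModuleCat.of (R ⧸ Ideal.span {x})
        (G a ⧸ (Ideal.span {x} • ⊤ : Submodule R (G a)))) := by
      intro a
      have := hGf a
      obtain ⟨n, u, hu⟩ := Module.Finite.exists_fin' R (G a)
      obtain ⟨a', ha'⟩ := bar_gen (M' := ModuleCat.of (R ⧸ Ideal.span {x})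
        (G a ⧸ (Ideal.span {x} • ⊤ : Submodule R (G a)))) u hu (quot_bar x (G a))
      exact Module.Finite.of_surjective a' ha'
    have hproj' : Module.Projective (R ⧸ Ideal.span {x}) (Z' 0) := by
      refine ih hG'f Z' hZ' hZ'f ?_ ?_ ?_
      · intro m
        obtain ⟨j, hj, hb⟩ := hd (m + 1)
        obtain ⟨j, rfl⟩ : ∃ j', j = j' + 1 := ⟨j - 1, by omega⟩
        exact ⟨j, by omega, bar_two _ (fun a => quot_bar x (G a)) hG (hπ j) (hZr j) hb⟩
      · intro i hi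
        obtain ⟨i, rfl⟩ : ∃ i', i = i' + 1 := ⟨i - 1, by omega⟩
        exact bar_ext hxR (hπ 0) (hZr 0) i (Z 1) (Z' 0) (π 0) (hπ 0) hZ1f (hZr 0) hAA1
      · intro i hi
        obtain ⟨i, rfl⟩ : ∃ i', i = i' + 1 := ⟨i - 1, by omega⟩
        exact bar_ext (N := ModuleCat.of R R)
          (N' := ModuleCat.of (R ⧸ Ideal.span {x}) (R ⧸ Ideal.span {x})) hxR
          (bar_self hφs (mk_ker x)) hxR i (Z 1) (Z' 0) (π 0) (hπ 0) hZ1f (hZr 0) hAR1
    have hproj : Module.Projective R (Z 1) := proj_of_bar hu hZ1f (hZr 0) (hπ 0) hproj'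
    have h1 : Subsingleton (Abelian.Ext.{0} (Z 0) (Z 1) (0 + 1)) :=
      ez_fgproj (hAR 1 le_rfl) hproj hZ1f
    obtain ⟨s, hs⟩ := lift_of_ez (f 0) (g 0) (hS 0).1 (hS 0).2.1 (hS 0).2.2 h1 LinearMap.id
    have hP0 := hPp 0
    exact Module.Projective.of_split s (g 0) hs

end Pool.Agent.Helper426AR
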