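import Pool.Agent.Helper426_AR.Red

set_option autoImplicit false
open CategoryTheory Pool.Agent.Helper426Tach

namespace Pool.Agent.Helper426AR

/-- CMType R: the ring R is a finite-dimensional algebra over a field, or there is a regular
nonunit x of R such that R / (x) is of this kind. That is, R has a regular sequence x_1, ..., x_n
such that R / (x_1, ..., x_n) is a finite-dimensional algebra over a field. -/
inductive CMType : (R : Type) → [CommRing R] → Prop
  | base (k R : Type) [Field k] [CommRing R] [Algebra k R] (h : Module.Finite k R) : CMType R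
  | step (R : Type) [CommRing R] (x : R) (hx : ∀ r : R, x * r = 0 → r = 0) (hu : ¬ IsUnit x)
      (h : CMType (R ⧸ Ideal.span {x})) : CMType R

/-- Chain Z: for every j there is an exact sequence 0 → Z (j + 1) → P → Z j → 0 with P finitely
generated and projective, that is, Z j is a j-th syzygy of Z 0 in one fixed resolution. -/
def Chain {R : Type} [Ring R] (Z : ℕ → ModuleCat.{0} R) : Prop :=
  ∀ j, ∃ (P : ModuleCat.{0} R) (f : Z (j + 1) →ₗ[R] P) (g : P →ₗ[R] Z j),
    Module.Finite R P ∧ Module.Projective R P ∧ SES f g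

theorem chain_syz {R : Type} [Ring R] {Z : ℕ → ModuleCat.{0} R} (h : Chain Z) (j : ℕ) :
    Syz R j (Z 0) (Z j) := by
  induction j with
  | zero => exact Syz.zero _
  | succ j ih =>
    obtain ⟨P, f, g, hf, hp, hS⟩ := h j
    exact Syz.succ ih f g hf hp hS

section
variable {R : Type} [CommRing R] {x : R}

theorem rg_proj (hx : Rg x R) {P : ModuleCat.{0} R} (hf : Module.Finite R P)
    (hP : Module.Projective R P) : Rg x P := by
  obtain ⟨n, a, ha⟩ := Module.Finite.exists_fin' R P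
  obtain ⟨b, hb⟩ := Module.projective_lifting_property a LinearMap.id ha
  intro p hp
  have h1 : b p = 0 := by
    funext i
    refine hx _ ?_
    have h2 : x • b p = 0 := by rw [← map_smul, hp, map_zero]
    exact congrFun h2 i
  have h3 : a (b p) = p := LinearMap.congr_fun hb p
  rw [← h3, h1, map_zero]

theorem rg_sub {X Y : ModuleCat.{0} R} (f : X →ₗ[R] Y) (hf : Function.Injective f)
    (hY : Rg x Y) : Rg x X := fun n hn => by
  refine hf ?_
  rw [map_zero]
  exact hY _ (by rw [← map_smul, hn, map_zero])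

theorem bar_gen {d : ℕ} {M : ModuleCat.{0} R} (a : (Fin d → R) →ₗ[R] M)
    (ha : Function.Surjective a) {M' : ModuleCat.{0} (R ⧸ Ideal.span {x})} {π : M →+ M'}
    (hπ : IsBar (Ideal.Quotient.mk (Ideal.span {x})) x π) :
    ∃ a' : (Fin d → (R ⧸ Ideal.span {x})) →ₗ[R ⧸ Ideal.span {x}] M', Function.Surjective a' := by
  have hφs : Function.Surjective (Ideal.Quotient.mk (Ideal.span {x})) :=
    Ideal.Quotient.mk_surjective
  have hx : Ideal.Quotient.mk (Ideal.span {x}) x = 0 := (mk_ker x x).mpr ⟨1, (mul_one x).symm⟩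
  have hfree := pi_bar (n := d) (fun _ => (Ideal.Quotient.mk (Ideal.span {x})).toAddMonoidHom)
    (fun _ => bar_self hφs (mk_ker x))
  obtain ⟨a', ha'⟩ := ind hφs hx hfree hπ a
  refine ⟨a', fun m => ?_⟩
  obtain ⟨m, rfl⟩ := hπ.surj m
  obtain ⟨v, rfl⟩ := ha m
  exact ⟨_, ha' v⟩

theorem bar_bdd {d : ℕ} {M : ModuleCat.{0} R} (h : BddSum d M)
    {M' : ModuleCat.{0} (R ⧸ Ideal.span {x})} {π : M →+ M'}
    (hπ : IsBar (Ideal.Quotient.mk (Ideal.span {x})) x π) : BddSum d M' := by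
  have hφs : Function.Surjective (Ideal.Quotient.mk (Ideal.span {x})) :=
    Ideal.Quotient.mk_surjective
  have hx : Ideal.Quotient.mk (Ideal.span {x}) x = 0 := (mk_ker x x).mpr ⟨1, (mul_one x).symm⟩
  obtain ⟨n, X, hX, ⟨e⟩⟩ := h
  choose X' ρ hρ using fun i => exists_bar x (X i)
  have h1 := pi_bar ρ hρ
  refine ⟨n, X', fun i => ?_, bar_iso hφs hx hπ h1 e⟩
  obtain ⟨a, ha⟩ := hX i
  exact bar_gen a ha (hρ i)

end

theorem ar_main {R : Type} [CommRing R] (h : CMType R) :
    ∀ [IsLocalRing R] [IsNoetherianRing R] (Z : ℕ → ModuleCat.{0} R), Chain Z →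
      Module.Finite R (Z 0) → ∀ d : ℕ, (∀ m : ℕ, ∃ j : ℕ, m ≤ j ∧ BddSum d (Z j)) →
      (∀ i, 1 ≤ i → Subsingleton (Abelian.Ext.{0} (Z 0) (Z 0) i)) →
      (∀ i, 1 ≤ i → Subsingleton (Abelian.Ext.{0} (Z 0) (ModuleCat.of R R) i)) →
      Module.Projective R (Z 0) := by
  induction h with
  | base k R hfin =>
    intro _ _ Z hZ hZf d hd hAA hAR
    refine main_bdd k R (Z 0) hZf d (fun n => ?_) hAA hAR
    obtain ⟨j, hj, hb⟩ := hd n
    exact ⟨j, hj, Z j, chain_syz hZ j, hb⟩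
  | step R x hx hu h ih =>
    intro hlocR hnoeR Z hZ hZf d hd hAA hAR
    have hφs : Function.Surjective (Ideal.Quotient.mk (Ideal.span {x})) :=
      Ideal.Quotient.mk_surjective
    have hφx : Ideal.Quotient.mk (Ideal.span {x}) x = 0 :=
      (mk_ker x x).mpr ⟨1, (mul_one x).symm⟩
    have hItop : Ideal.span {x} ≠ ⊤ := by
      intro h
      exact hu (Ideal.span_singleton_eq_top.mp h)
    have hnt : Nontrivial (R ⧸ Ideal.span {x}) := Ideal.Quotient.nontrivial_iff.mpr hItop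
    have hloc : IsLocalRing (R ⧸ Ideal.span {x}) :=
      IsLocalRing.of_surjective' (Ideal.Quotient.mk (Ideal.span {x})) hφs
    have hnoe : IsNoetherianRing (R ⧸ Ideal.span {x}) := inferInstance
    have hxR : Rg x R := hx
    choose P f g hPf hPp hS using hZ
    have hPr : ∀ j, Rg x (P j) := fun j => rg_proj hxR (hPf j) (hPp j)
    have hZr : ∀ j, Rg x (Z (j + 1)) := fun j => rg_sub (f j) (hS j).1 (hPr j)
    choose Z' π hπ using fun j => exists_bar x (Z (j + 1))
    have hZ1f : Module.Finite R (Z 1) := Module.Finite.of_injective (f 0) (hS 0).1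
    -- the chain modulo x
    have hZ' : Chain Z' := by
      intro j
      obtain ⟨P', ρ, hρ⟩ := exists_bar x (P (j + 1))
      obtain ⟨f', hf'⟩ := ind hφs hφx (hπ (j + 1)) hρ (f (j + 1))
      obtain ⟨g', hg'⟩ := ind hφs hφx hρ (hπ j) (g (j + 1))
      obtain ⟨h1, h2⟩ := bar_proj hφs (mk_ker x) hρ (hPf (j + 1)) (hPp (j + 1))
      exact ⟨P', f', g', h1, h2, bar_ses (hπ (j + 1)) hρ (hπ j) _ _ (hS (j + 1)) (hZr j)
        (hPr (j + 1)) f' g' hf' hg'⟩
    have hZ'f : Module.Finite (R ⧸ Ideal.span {x}) (Z' 0) := by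
      obtain ⟨n, a, ha⟩ := Module.Finite.exists_fin' R (Z 1)
      obtain ⟨a', ha'⟩ := bar_gen a ha (hπ 0)
      exact Module.Finite.of_surjective a' ha'
    -- vanishing of Ext for the first syzygy
    have hAR1 : ∀ i, 1 ≤ i → Subsingleton (Abelian.Ext.{0} (Z 1) (ModuleCat.of R R) i) := by
      intro i hi
      obtain ⟨i, rfl⟩ : ∃ i', i = i' + 1 := ⟨i - 1, by omega⟩
      exact ez_contra1 (f 0) (g 0) (hS 0).1 (hS 0).2.1 (hS 0).2.2 (ez_projective (hPp 0) i)
        (hAR (i + 1 + 1) (by omega))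
    have hAA1 : ∀ i, 1 ≤ i → Subsingleton (Abelian.Ext.{0} (Z 1) (Z 1) i) := by
      intro i hi
      obtain ⟨i, rfl⟩ : ∃ i', i = i' + 1 := ⟨i - 1, by omega⟩
      refine ez_contra1 (f 0) (g 0) (hS 0).1 (hS 0).2.1 (hS 0).2.2 (ez_projective (hPp 0) i) ?_
      exact ez_cov1 (f 0) (g 0) (hS 0).1 (hS 0).2.1 (hS 0).2.2
        (ez_fgproj (hAR (i + 1 + 1) (by omega)) (hPp 0) (hPf 0)) (hAA (i + 1) (by omega))
    have hproj' : Module.Projective (R ⧸ Ideal.span {x}) (Z' 0) := by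
      refine ih Z' hZ' hZ'f d ?_ ?_ ?_
      · intro m
        obtain ⟨j, hj, hb⟩ := hd (m + 1)
        obtain ⟨j, rfl⟩ : ∃ j', j = j' + 1 := ⟨j - 1, by omega⟩
        exact ⟨j, by omega, bar_bdd hb (hπ j)⟩
      · intro i hi
        obtain ⟨i, rfl⟩ : ∃ i', i = i' + 1 := ⟨i - 1, by omega⟩
        exact bar_ext hxR (hπ 0) (hZr 0) i (Z 1) (Z' 0) (π 0) (hπ 0) hZ1f (hZr 0) hAA1
      · intro i hi
        obtain ⟨i, rfl⟩ : ∃ i', i = i' + 1 := ⟨i - 1, by omega⟩
        exact bar_ext (N := ModuleCat.of R R)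
          (N' := ModuleCat.of (R ⧸ Ideal.span {x}) (R ⧸ Ideal.span {x})) hxR
          (bar_self hφs (mk_ker x)) hxR i (Z 1) (Z' 0) (π 0) (hπ 0) hZ1f (hZr 0) hAR1
    have hproj : Module.Projective R (Z 1) := proj_of_bar hu hZ1f (hZr 0) (hπ 0) hproj'
    -- the first sequence splits
    have h1 : Subsingleton (Abelian.Ext.{0} (Z 0) (Z 1) (0 + 1)) :=
      ez_fgproj (hAR 1 le_rfl) hproj hZ1f
    obtain ⟨s, hs⟩ := lift_of_ez (f 0) (g 0) (hS 0).1 (hS 0).2.1 (hS 0).2.2 h1 LinearMap.id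
    have hP0 := hPp 0
    exact Module.Projective.of_split s (g 0) hs

end Pool.Agent.Helper426AR
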