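import Pool.Agent.Helper426_AR.Bar

set_option autoImplicit false
open CategoryTheory Pool.Agent.Helper426Tach

namespace Pool.Agent.Helper426AR

/-- vanishing of Ext^1 from the extension property -/
theorem ext1_of_extend {S : Type} [Ring S] [HasExt.{0} (ModuleCat.{0} S)]
    {A B C : ModuleCat.{0} S} (f : A →ₗ[S] B) (g : B →ₗ[S] C) (h : SES f g)
    (hB : Module.Projective S B) (N : ModuleCat.{0} S)
    (he : ∀ u : A →ₗ[S] N, ∃ v : B →ₗ[S] N, v ∘ₗ f = u) :
    Subsingleton (Abelian.Ext.{0} C N 1) := by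
  obtain ⟨hf, hfg, hg⟩ := h
  have hS := sc_shortExact f g hf hfg hg
  have hB1 : Subsingleton (Abelian.Ext.{0} B N (0 + 1)) := ez_projective hB 0
  refine subsingleton_of_forall_eq 0 fun y => ?_
  obtain ⟨w, hw⟩ := Abelian.Ext.contravariant_sequence_exact₃ hS N y (hB1.elim _ _)
    (add_zero 1)
  obtain ⟨ψ, rfl⟩ := (Abelian.Ext.mk₀_bijective _ _).2 w
  obtain ⟨v, hv⟩ := he ψ.hom
  have h1 : ψ = (sc f g hfg).f ≫ ModuleCat.ofHom v := by
    apply ModuleCat.hom_ext
    exact hv.symm
  rw [← hw, h1, ← Abelian.Ext.mk₀_comp_mk₀, ← Abelian.Ext.comp_assoc_of_second_deg_zero,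
    hS.extClass_comp, Abelian.Ext.zero_comp]

section
variable {R : Type} [CommRing R] [HasExt.{0} (ModuleCat.{0} R)] {x : R}
  [HasExt.{0} (ModuleCat.{0} (R ⧸ Ideal.span {x}))]

/-- Ext modulo a regular element -/
theorem bar_ext [IsNoetherianRing R] (hxR : Rg x R) {N : ModuleCat.{0} R}
    {N' : ModuleCat.{0} (R ⧸ Ideal.span {x})} {πN : N →+ N'}
    (hπN : IsBar (Ideal.Quotient.mk (Ideal.span {x})) x πN) (hN : Rg x N) (i : ℕ) :
    ∀ (M : ModuleCat.{0} R) (M' : ModuleCat.{0} (R ⧸ Ideal.span {x})) (πM : M →+ M'),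
      IsBar (Ideal.Quotient.mk (Ideal.span {x})) x πM → Module.Finite R M → Rg x M →
      (∀ j, 1 ≤ j → Subsingleton (Abelian.Ext.{0} M N j)) →
      Subsingleton (Abelian.Ext.{0} M' N' (i + 1)) := by
  have hφs : Function.Surjective (Ideal.Quotient.mk (Ideal.span {x})) :=
    Ideal.Quotient.mk_surjective
  have hx : Ideal.Quotient.mk (Ideal.span {x}) x = 0 := (mk_ker x x).mpr ⟨1, (mul_one x).symm⟩
  induction i with
  | zero =>
    intro M M' πM hπM hMf hM hext
    obtain ⟨n, p, hp⟩ := Module.Finite.exists_fin' R M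
    obtain ⟨P', πP, hπP⟩ := exists_bar x (ModuleCat.of R (Fin n → R))
    obtain ⟨Y', πY, hπY⟩ := exists_bar x (ModuleCat.of R (LinearMap.ker p))
    have hS : SES (X := ModuleCat.of R (LinearMap.ker p)) (Y := ModuleCat.of R (Fin n → R))
        (Z := M) (LinearMap.ker p).subtype p :=
      ⟨Subtype.val_injective, fun z => by
        constructor
        · intro h
          exact ⟨⟨z, h⟩, rfl⟩
        · rintro ⟨z, rfl⟩
          exact z.2, hp⟩
    have hrP : Rg x (ModuleCat.of R (Fin n → R)) := fun v hv =>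
      funext fun i => hxR (v i) (congrFun hv i)
    obtain ⟨f', hf'⟩ := ind hφs hx hπY hπP (LinearMap.ker p).subtype
    obtain ⟨g', hg'⟩ := ind hφs hx hπP hπM p
    have hS' := bar_ses hπY hπP hπM _ _ hS hM hrP f' g' hf' hg'
    have hPf : Module.Finite R (ModuleCat.of R (Fin n → R)) := by
      change Module.Finite R (Fin n → R)
      infer_instance
    have hPp : Module.Projective R (ModuleCat.of R (Fin n → R)) := by
      change Module.Projective R (Fin n → R)
      infer_instance
    obtain ⟨-, hP'⟩ := bar_proj hφs (mk_ker x) hπP hPf hPp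
    refine ext1_of_extend f' g' hS' hP' N' fun u => ?_
    -- N' as an R-module
    let _ : Module R N' := Module.compHom N' (Ideal.Quotient.mk (Ideal.span {x}))
    have hsm : ∀ (r : R) (n : N'), r • n = Ideal.Quotient.mk (Ideal.span {x}) r • n :=
      fun r n => rfl
    let Nr : ModuleCat.{0} R := ModuleCat.of R N'
    let mulx : N →ₗ[R] N :=
      { toFun := fun n => x • n
        map_add' := fun a b => smul_add x a b
        map_smul' := fun r a => by
          rw [RingHom.id_apply, smul_smul, smul_smul, mul_comm] }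
    let πl : N →ₗ[R] Nr :=
      { toFun := fun n => πN n
        map_add' := fun a b => map_add πN a b
        map_smul' := fun r a => hπN.smul r a }
    have hSN : SES mulx πl := by
      refine ⟨?_, ?_, hπN.surj⟩
      · rw [injective_iff_map_eq_zero]
        exact fun n hn => hN n hn
      · intro n
        constructor
        · intro h
          obtain ⟨m, rfl⟩ := (hπN.ker n).mp h
          exact ⟨m, rfl⟩
        · rintro ⟨m, rfl⟩
          exact (hπN.ker _).mpr ⟨m, rfl⟩
    have hext1 : Subsingleton (Abelian.Ext.{0} M Nr 1) :=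
      ez_cov3 mulx πl hSN.1 hSN.2.1 hSN.2.2 (hext 1 le_rfl) (hext (1 + 1) (by omega))
    let u0 : ModuleCat.of R (LinearMap.ker p) →ₗ[R] Nr :=
      { toFun := fun a => u (πY a)
        map_add' := fun a b => by rw [map_add, map_add]
        map_smul' := fun r a => by
          rw [hπY.smul, map_smul]
          rfl }
    obtain ⟨v0, hv0⟩ := ext_of_ez (A := ModuleCat.of R (LinearMap.ker p))
      (B := ModuleCat.of R (Fin n → R)) (C := M) (LinearMap.ker p).subtype p hS.1 hS.2.1 hS.2.2
      hext1 u0
    obtain ⟨v, hv⟩ := desc (X := N') hφs hx hπP v0.toAddMonoidHom fun r n => by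
      change v0 (r • n) = _
      rw [map_smul]
      rfl
    refine ⟨v, LinearMap.ext fun a => ?_⟩
    obtain ⟨a, rfl⟩ := hπY.surj a
    change v (f' (πY a)) = u (πY a)
    rw [hf', hv]
    exact LinearMap.congr_fun hv0 a
  | succ i ih =>
    intro M M' πM hπM hMf hM hext
    obtain ⟨n, p, hp⟩ := Module.Finite.exists_fin' R M
    obtain ⟨P', πP, hπP⟩ := exists_bar x (ModuleCat.of R (Fin n → R))
    obtain ⟨Y', πY, hπY⟩ := exists_bar x (ModuleCat.of R (LinearMap.ker p))
    have hS : SES (X := ModuleCat.of R (LinearMap.ker p)) (Y := ModuleCat.of R (Fin n → R))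
        (Z := M) (LinearMap.ker p).subtype p :=
      ⟨Subtype.val_injective, fun z => by
        constructor
        · intro h
          exact ⟨⟨z, h⟩, rfl⟩
        · rintro ⟨z, rfl⟩
          exact z.2, hp⟩
    have hrP : Rg x (ModuleCat.of R (Fin n → R)) := fun v hv =>
      funext fun i => hxR (v i) (congrFun hv i)
    obtain ⟨f', hf'⟩ := ind hφs hx hπY hπP (LinearMap.ker p).subtype
    obtain ⟨g', hg'⟩ := ind hφs hx hπP hπM p
    have hS' := bar_ses hπY hπP hπM _ _ hS hM hrP f' g' hf' hg'
    have hPf : Module.Finite R (ModuleCat.of R (Fin n → R)) := by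
      change Module.Finite R (Fin n → R)
      infer_instance
    have hPp : Module.Projective R (ModuleCat.of R (Fin n → R)) := by
      change Module.Projective R (Fin n → R)
      infer_instance
    obtain ⟨-, hP'⟩ := bar_proj hφs (mk_ker x) hπP hPf hPp
    have hYf : Module.Finite R (ModuleCat.of R (LinearMap.ker p)) := by
      change Module.Finite R (LinearMap.ker p)
      infer_instance
    have hY : Rg x (ModuleCat.of R (LinearMap.ker p)) := fun v hv =>
      Subtype.ext (hrP v.1 (congrArg Subtype.val hv))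
    have h1 := ih (ModuleCat.of R (LinearMap.ker p)) Y' πY hπY hYf hY fun j hj => by
      obtain ⟨j, rfl⟩ : ∃ j', j = j' + 1 := ⟨j - 1, by omega⟩
      exact ez_contra1 (A := ModuleCat.of R (LinearMap.ker p)) (B := ModuleCat.of R (Fin n → R))
        (C := M) (LinearMap.ker p).subtype p hS.1 hS.2.1 hS.2.2 (ez_projective hPp j)
        (hext (j + 1 + 1) (by omega))
    exact ez_contra3 f' g' hS'.1 hS'.2.1 hS'.2.2 h1 (ez_projective hP' (i + 1))

end

/-- projectivity lifts from R / x to R -/
theorem proj_of_bar {R : Type} [CommRing R] [IsLocalRing R] [IsNoetherianRing R] {x : R}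
    (hxm : ¬ IsUnit x) {M : Type} [AddCommGroup M] [Module R M] (hMf : Module.Finite R M)
    (hM : Rg x M) {M' : Type} [AddCommGroup M'] [Module (R ⧸ Ideal.span {x}) M'] {π : M →+ M'}
    (hπ : IsBar (Ideal.Quotient.mk (Ideal.span {x})) x π)
    (hM' : Module.Projective (R ⧸ Ideal.span {x}) M') : Module.Projective R M := by
  have hφs : Function.Surjective (Ideal.Quotient.mk (Ideal.span {x})) :=
    Ideal.Quotient.mk_surjective
  have hx : Ideal.Quotient.mk (Ideal.span {x}) x = 0 := (mk_ker x x).mpr ⟨1, (mul_one x).symm⟩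
  have hItop : Ideal.span {x} ≠ ⊤ := by
    intro h
    exact hxm (Ideal.span_singleton_eq_top.mp h)
  have hnt : Nontrivial (R ⧸ Ideal.span {x}) := Ideal.Quotient.nontrivial_iff.mpr hItop
  have hloc : IsLocalRing (R ⧸ Ideal.span {x}) :=
    IsLocalRing.of_surjective' (Ideal.Quotient.mk (Ideal.span {x})) hφs
  have hIj : Ideal.span {x} ≤ (⊥ : Ideal R).jacobson := by
    rw [IsLocalRing.jacobson_eq_maximalIdeal ⊥ bot_ne_top]
    exact IsLocalRing.le_maximalIdeal hItop
  have hMf' : Module.Finite (R ⧸ Ideal.span {x}) M' := by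
    obtain ⟨n, a, ha⟩ := Module.Finite.exists_fin' R M
    have hfree := pi_bar (n := n) (fun _ => (Ideal.Quotient.mk (Ideal.span {x})).toAddMonoidHom)
      (fun _ => bar_self hφs (mk_ker x))
    obtain ⟨a', ha'⟩ := ind hφs hx hfree hπ a
    refine Module.Finite.of_surjective a' fun m => ?_
    obtain ⟨m, rfl⟩ := hπ.surj m
    obtain ⟨v, rfl⟩ := ha m
    exact ⟨_, ha' v⟩
  have hfr : Module.Free (R ⧸ Ideal.span {x}) M' := Module.free_of_flat_of_isLocalRing
  let b := Module.finBasis (R ⧸ Ideal.span {x}) M'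
  let n := Module.finrank (R ⧸ Ideal.span {x}) M'
  choose m hm using fun i : Fin n => hπ.surj (b i)
  let a : (Fin n → R) →ₗ[R] M := Fintype.linearCombination R m
  have ha : ∀ v, a v = ∑ i, v i • m i := fun v => rfl
  have hfree := pi_bar (n := n) (fun _ => (Ideal.Quotient.mk (Ideal.span {x})).toAddMonoidHom)
      (fun _ => bar_self hφs (mk_ker x))
  let φ := Ideal.Quotient.mk (Ideal.span {x})
  have hπa : ∀ v : Fin n → R, π (a v) = b.equivFun.symm (fun i => φ (v i)) := by
    intro v
    rw [ha, map_sum, Module.Basis.equivFun_symm_apply]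
    refine Finset.sum_congr rfl fun i _ => ?_
    rw [hπ.smul, hm]
  have hsurj : Function.Surjective a := by
    rw [← LinearMap.range_eq_top, eq_top_iff]
    refine Submodule.le_of_le_smul_of_le_jacobson_bot (I := Ideal.span {x}) hMf.fg_top hIj ?_
    intro y _
    obtain ⟨v, hv⟩ := hfree.surj (b.equivFun (π y))
    have hv' : (fun i => φ (v i)) = b.equivFun (π y) := hv
    have h1 : π (y - a v) = 0 := by
      rw [map_sub, hπa, hv', LinearEquiv.symm_apply_apply, sub_self]
    obtain ⟨z, hz⟩ := (hπ.ker _).mp h1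
    rw [show y = a v + x • z by rw [← hz, add_sub_cancel]]
    refine Submodule.add_mem_sup ⟨v, rfl⟩ ?_
    exact Submodule.smul_mem_smul (Ideal.mem_span_singleton_self x) trivial
  have hker : LinearMap.ker a = ⊥ := by
    refine Submodule.eq_bot_of_le_smul_of_le_jacobson_bot (Ideal.span {x}) (LinearMap.ker a)
      (IsNoetherian.noetherian _) ?_ hIj
    intro v hv
    have h1 : a v = 0 := hv
    have h2 : b.equivFun.symm (fun i => φ (v i)) = 0 := by rw [← hπa, h1, map_zero]
    have h3 : (fun i => φ (v i)) = 0 := by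
      have := congrArg b.equivFun h2
      rwa [LinearEquiv.apply_symm_apply, map_zero] at this
    obtain ⟨w, rfl⟩ := (hfree.ker v).mp h3
    have h4 : a w = 0 := hM _ (by rw [← map_smul]; exact h1)
    exact Submodule.smul_mem_smul (Ideal.mem_span_singleton_self x) h4
  let e : (Fin n → R) ≃ₗ[R] M := LinearEquiv.ofBijective a ⟨LinearMap.ker_eq_bot.mp hker, hsurj⟩
  exact Module.Projective.of_equiv e

end Pool.Agent.Helper426AR
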