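import Pool.Agent.Helper426_AR.MainAR
import Pool.Agent.Helper426_GSC.Bimod

set_option autoImplicit false
open CategoryTheory Pool.Agent.Helper426Tach Pool.Agent.Helper426GSC

namespace Pool.Agent.Helper426AR

/-- CanType R ω: the ring R and the module ω are obtained as follows. Either R is a
finite-dimensional algebra over a field k and ω is isomorphic to the dual Hom_k(R, k), or there is
a nonunit x which is regular on R and on ω, and R / (x) and ω / x ω are of this kind. That is, some
regular sequence x_1, ..., x_n on R and on ω is such that R / (x_1, ..., x_n) is a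
finite-dimensional algebra over a field k and ω / (x_1, ..., x_n) ω is its k-dual. -/
inductive CanType : (R : Type) → [CommRing R] → ModuleCat.{0} R → Prop
  | base (k R : Type) [Field k] [CommRing R] [Algebra k R] (h : Module.Finite k R)
      (ω : ModuleCat.{0} R) (φ : ω ≃+ (R →ₗ[k] k))
      (hφ : ∀ (r : R) (w : ω) (y : R), φ (r • w) y = φ w (y * r)) : CanType R ω
  | step (R : Type) [CommRing R] (x : R) (hx : ∀ r : R, x * r = 0 → r = 0) (hu : ¬ IsUnit x)
      (ω : ModuleCat.{0} R) (hω : ∀ w : ω, x • w = 0 → w = 0)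
      (h : CanType (R ⧸ Ideal.span {x}) (ModuleCat.of (R ⧸ Ideal.span {x})
        (ω ⧸ (Ideal.span {x} • ⊤ : Submodule R ω)))) : CanType R ω

/-- the reduction as a quotient -/
theorem quot_bar {R : Type} [CommRing R] (x : R) (N : ModuleCat.{0} R) :
    IsBar (Ideal.Quotient.mk (Ideal.span {x})) x
      (N' := ModuleCat.of (R ⧸ Ideal.span {x}) (N ⧸ (Ideal.span {x} • ⊤ : Submodule R N)))
      (Submodule.mkQ (Ideal.span {x} • ⊤ : Submodule R N)).toAddMonoidHom := by
  refine ⟨?_, ?_, ?_⟩
  · intro r n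
    rfl
  · exact Submodule.mkQ_surjective _
  · intro n
    change Submodule.mkQ (Ideal.span {x} • ⊤ : Submodule R N) n = 0 ↔ _
    rw [Submodule.mkQ_apply, Submodule.Quotient.mk_eq_zero,
      Submodule.ideal_span_singleton_smul, Submodule.mem_smul_pointwise_iff_exists]
    constructor
    · rintro ⟨m, -, rfl⟩
      exact ⟨m, rfl⟩
    · rintro ⟨m, rfl⟩
      exact ⟨m, trivial, rfl⟩

theorem tach_main {R : Type} [CommRing R] {ω : ModuleCat.{0} R} (h : CanType R ω) :
    ∀ [IsLocalRing R] [IsNoetherianRing R] (Z : ℕ → ModuleCat.{0} R), Z 0 = ω → Chain Z →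
      Module.Finite R ω → ∀ d : ℕ, (∀ m : ℕ, ∃ j : ℕ, m ≤ j ∧ BddSum d (Z j)) →
      (∀ i, 1 ≤ i → Subsingleton (Abelian.Ext.{0} ω (ModuleCat.of R R) i)) →
      Nonempty (ω ≃ₗ[R] R) := by
  induction h with
  | base k R hfin ω φ hφ =>
    intro _ _ Z h0 hZ hZf d hd hAR
    subst h0
    let e : Z 0 ≃ₗ[R] QD k R :=
      { toFun := fun w => mkQ (φ w)
        invFun := fun f => φ.symm f
        map_add' := fun a b => by
          change mkQ (φ (a + b)) = mkQ (φ a) + mkQ (φ b)
          rw [map_add]
          rfl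
        map_smul' := fun r w => qd_ext fun y => hφ r w y
        left_inv := fun w => φ.symm_apply_apply w
        right_inv := fun f => φ.apply_symm_apply f }
    have hinj : Module.Injective R (Z 0) :=
      ⟨fun X Y _ _ _ _ f hf u => by
        obtain ⟨v, hv⟩ := (qd_injective (k := k) (A := R)).out f hf (e.toLinearMap ∘ₗ u)
        exact ⟨e.symm.toLinearMap ∘ₗ v, fun x => by
          change e.symm (v (f x)) = u x
          rw [hv]
          exact e.symm_apply_apply _⟩⟩
    have hproj : Module.Projective R (Z 0) := by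
      refine main_bdd k R (Z 0) hZf d (fun n => ?_) (fun i hi => ?_) hAR
      · obtain ⟨j, hj, hb⟩ := hd n
        exact ⟨j, hj, Z j, chain_syz hZ j, hb⟩
      · obtain ⟨i, rfl⟩ : ∃ i', i = i' + 1 := ⟨i - 1, by omega⟩
        exact ez_injective hinj i
    have hfree : Module.Free R (Z 0) := Module.free_of_flat_of_isLocalRing
    let b := Module.finBasis R (Z 0)
    let _ : Module k (Z 0) := Module.compHom (Z 0) (algebraMap k R)
    have _ : IsScalarTower k R (Z 0) := ⟨fun c r w => by
      rw [Algebra.smul_def, mul_smul]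
      rfl⟩
    let φk : Z 0 ≃ₗ[k] (R →ₗ[k] k) :=
      { φ with
        map_smul' := fun c w => LinearMap.ext fun y => by
          change φ (algebraMap k R c • w) y = c * φ w y
          rw [hφ, mul_comm, ← Algebra.smul_def, map_smul]
          rfl }
    have h1 : Module.finrank k (Z 0) = Module.finrank k R :=
      φk.finrank_eq.trans Subspace.dual_finrank_eq
    have h2 : Module.finrank k R * Module.finrank R (Z 0) = Module.finrank k (Z 0) :=
      Module.finrank_mul_finrank k R (Z 0)
    have h3 : 0 < Module.finrank k R := Module.finrank_pos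
    have h4 : 1 = Module.finrank R (Z 0) := by
      have h5 : Module.finrank k R * Module.finrank R (Z 0) = Module.finrank k R * 1 := by
        rw [h2, h1, mul_one]
      exact (Nat.eq_of_mul_eq_mul_left h3 h5).symm
    exact ⟨(b.equivFun.trans (LinearEquiv.funCongrLeft R R (finCongr h4))).trans
      (LinearEquiv.funUnique (Fin 1) R R)⟩
  | step R x hx hu ω hω h ih =>
    intro hlocR hnoeR Z h0 hZ hZf d hd hAR
    subst h0
    have hφs : Function.Surjective (Ideal.Quotient.mk (Ideal.span {x})) :=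
      Ideal.Quotient.mk_surjective
    have hφx : Ideal.Quotient.mk (Ideal.span {x}) x = 0 :=
      (mk_ker x x).mpr ⟨1, (mul_one x).symm⟩
    have hItop : Ideal.span {x} ≠ ⊤ := by
      intro h
      exact hu (Ideal.span_singleton_eq_top.mp h)
    have hnt : Nontrivial (R ⧸ Ideal.span {x}) := Ideal.Quotient.nontrivial_iff.mpr hItop
    have hloc : IsLocalRing (R ⧸ Ideal.span {x}) :=
      IsLocalRing.of_surjective' (Ideal.Quotient.mk (Ideal.span {x})) hφs
    have hnoe : IsNoetherianRing (R ⧸ Ideal.span {x}) := inferInstance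
    have hxR : Rg x R := hx
    choose P f g hPf hPp hS using hZ
    have hPr : ∀ j, Rg x (P j) := fun j => rg_proj hxR (hPf j) (hPp j)
    have hZr : ∀ j, Rg x (Z j) := by
      intro j
      cases j with
      | zero => exact hω
      | succ j => exact rg_sub (f j) (hS j).1 (hPr j)
    let Z' : ℕ → ModuleCat.{0} (R ⧸ Ideal.span {x}) := fun j =>
      ModuleCat.of (R ⧸ Ideal.span {x}) (Z j ⧸ (Ideal.span {x} • ⊤ : Submodule R (Z j)))
    have hπ := fun j => quot_bar x (Z j)
    have hZ' : Chain Z' := by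
      intro j
      obtain ⟨P', ρ, hρ⟩ := exists_bar x (P j)
      obtain ⟨f', hf'⟩ := ind hφs hφx (hπ (j + 1)) hρ (f j)
      obtain ⟨g', hg'⟩ := ind hφs hφx hρ (hπ j) (g j)
      obtain ⟨h1, h2⟩ := bar_proj hφs (mk_ker x) hρ (hPf j) (hPp j)
      exact ⟨P', f', g', h1, h2, bar_ses (X' := Z' (j + 1)) (Z' := Z' j) (hπ (j + 1)) hρ (hπ j)
        _ _ (hS j) (hZr j) (hPr j) f' g' hf' hg'⟩
    have hZ'f : Module.Finite (R ⧸ Ideal.span {x}) (Z' 0) := by
      obtain ⟨n, a, ha⟩ := Module.Finite.exists_fin' R (Z 0)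
      obtain ⟨a', ha'⟩ := bar_gen a ha (M' := Z' 0) (hπ 0)
      exact Module.Finite.of_surjective a' ha'
    have hiso : Nonempty (Z' 0 ≃ₗ[R ⧸ Ideal.span {x}] (R ⧸ Ideal.span {x})) := by
      refine ih Z' rfl hZ' hZ'f d ?_ ?_
      · intro m
        obtain ⟨j, hj, hb⟩ := hd m
        exact ⟨j, hj, bar_bdd (M' := Z' j) hb (hπ j)⟩
      · intro i hi
        obtain ⟨i, rfl⟩ : ∃ i', i = i' + 1 := ⟨i - 1, by omega⟩
        exact bar_ext (N := ModuleCat.of R R)
          (N' := ModuleCat.of (R ⧸ Ideal.span {x}) (R ⧸ Ideal.span {x})) hxR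
          (bar_self hφs (mk_ker x)) hxR i (Z 0) (Z' 0) _ (hπ 0) hZf (hZr 0) hAR
    obtain ⟨e'⟩ := hiso
    have hproj' : Module.Projective (R ⧸ Ideal.span {x}) (Z' 0) :=
      Module.Projective.of_equiv e'.symm
    have hproj : Module.Projective R (Z 0) := proj_of_bar hu hZf (hZr 0) (hπ 0) hproj'
    have hfree : Module.Free R (Z 0) := Module.free_of_flat_of_isLocalRing
    let b := Module.finBasis R (Z 0)
    have hpi := pi_bar (n := Module.finrank R (Z 0))
      (fun _ => (Ideal.Quotient.mk (Ideal.span {x})).toAddMonoidHom)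
      (fun _ => bar_self hφs (mk_ker x))
    obtain ⟨e2⟩ := bar_iso (N' := Z' 0) hφs hφx (hπ 0) hpi b.equivFun
    have h1 : Module.finrank (R ⧸ Ideal.span {x}) (R ⧸ Ideal.span {x}) =
        Module.finrank (R ⧸ Ideal.span {x})
          (Fin (Module.finrank R (Z 0)) → (R ⧸ Ideal.span {x})) :=
      (e'.symm.trans e2).finrank_eq
    rw [Module.finrank_self, Module.finrank_fin_fun] at h1
    exact ⟨(b.equivFun.trans (LinearEquiv.funCongrLeft R R (finCongr h1))).trans
      (LinearEquiv.funUnique (Fin 1) R R)⟩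

end Pool.Agent.Helper426AR
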