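import Pool.Agent.Helper426_AR.IT

set_option autoImplicit false
open CategoryTheory Pool.Agent.Helper426Tach Pool.Agent.Helper426TauT

namespace Pool.Agent.Helper426AR

/-- CanOn R ω N G: either R is artinian and ω is an indecomposable injective module, or there is a
nonunit x which is regular on R, on ω and on all the modules G a, and R / (x) with ω / x ω and the
modules G a / x G a is of this kind. That is, some sequence x_1, ..., x_n in R is regular on R, on ω
and on all the G a, the ring R / (x_1, ..., x_n) is artinian and ω / (x_1, ..., x_n) ω is an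
indecomposable injective module over it. -/
inductive CanOn : (R : Type) → [CommRing R] → ModuleCat.{0} R → (N : ℕ) →
    (Fin N → ModuleCat.{0} R) → Prop
  | base (R : Type) [CommRing R] (h : IsArtinianRing R) (ω : ModuleCat.{0} R)
      (hinj : Module.Injective R ω) (hnt : Nontrivial ω)
      (hind : ∀ A B : Submodule R ω, IsCompl A B → A = ⊥ ∨ B = ⊥) (N : ℕ)
      (G : Fin N → ModuleCat.{0} R) : CanOn R ω N G
  | step (R : Type) [CommRing R] (x : R) (hx : ∀ r : R, x * r = 0 → r = 0) (hu : ¬ IsUnit x)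
      (ω : ModuleCat.{0} R) (hω : ∀ w : ω, x • w = 0 → w = 0)
      (N : ℕ) (G : Fin N → ModuleCat.{0} R) (hG : ∀ (a : Fin N) (w : G a), x • w = 0 → w = 0)
      (h : CanOn (R ⧸ Ideal.span {x}) (ModuleCat.of (R ⧸ Ideal.span {x})
        (ω ⧸ (Ideal.span {x} • ⊤ : Submodule R ω))) N
        (fun a => ModuleCat.of (R ⧸ Ideal.span {x})
          (G a ⧸ (Ideal.span {x} • ⊤ : Submodule R (G a))))) : CanOn R ω N G

theorem rank_one {R : Type} [CommRing R] [Nontrivial R] {ω : Type} [AddCommGroup ω] [Module R ω]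
    (n : ℕ) (e : ω ≃ₗ[R] (Fin n → R)) (hnt : Nontrivial ω)
    (hind : ∀ A B : Submodule R ω, IsCompl A B → A = ⊥ ∨ B = ⊥) : 1 = n := by
  classical
  rcases n with _ | _ | n
  · exfalso
    obtain ⟨a, b, hab⟩ := hnt
    exact hab (e.injective (Subsingleton.elim _ _))
  · rfl
  · exfalso
    let p : ω →ₗ[R] R := (LinearMap.proj 0) ∘ₗ e.toLinearMap
    let s : R →ₗ[R] ω := e.symm.toLinearMap ∘ₗ (LinearMap.single R (fun _ => R) 0)
    have hps : ∀ r, p (s r) = r := by
      intro r
      change (e (e.symm (Pi.single 0 r))) 0 = r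
      rw [e.apply_symm_apply, Pi.single_eq_same]
    have hc : IsCompl (LinearMap.range s) (LinearMap.ker p) := by
      constructor
      · rw [Submodule.disjoint_def]
        rintro y ⟨r, rfl⟩ hy
        have h1 : p (s r) = 0 := hy
        rw [hps] at h1
        rw [h1, map_zero]
      · rw [codisjoint_iff, eq_top_iff]
        intro y _
        have h1 : y = s (p y) + (y - s (p y)) := by rw [add_sub_cancel]
        rw [h1]
        refine Submodule.add_mem_sup ⟨p y, rfl⟩ ?_
        change p (y - s (p y)) = 0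
        rw [map_sub, hps, sub_self]
    rcases hind _ _ hc with h | h
    · have h1 : s 1 ∈ LinearMap.range s := ⟨1, rfl⟩
      rw [h, Submodule.mem_bot] at h1
      have h2 := hps 1
      rw [h1, map_zero] at h2
      exact zero_ne_one h2
    · let y : ω := e.symm (Pi.single 1 1)
      have hy : e y = Pi.single 1 1 := e.apply_symm_apply _
      have h1 : y ∈ LinearMap.ker p := by
        change (e y) 0 = 0
        rw [hy]
        refine Pi.single_eq_of_ne ?_ _
        intro h01
        have h02 := congrArg Fin.val h01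
        simp at h02
      rw [h, Submodule.mem_bot] at h1
      rw [h1, map_zero] at hy
      have h2 := congrFun hy 1
      rw [Pi.single_eq_same] at h2
      exact zero_ne_one h2

theorem base_it {R : Type} [CommRing R] (hartR : IsArtinianRing R) {N : ℕ}
    {G : Fin N → ModuleCat.{0} R} (hGf : ∀ a, Module.Finite R (G a)) (Z : ℕ → ModuleCat.{0} R)
    (hZ : Chain Z) (hZf : Module.Finite R (Z 0))
    (hd : ∀ m : ℕ, ∃ j : ℕ, m ≤ j ∧ TwoStep G (Z j)) [IsLocalRing R]
    (hAA : ∀ i, 1 ≤ i → Subsingleton (Abelian.Ext.{0} (Z 0) (Z 0) i))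
    (hAR : ∀ i, 1 ≤ i → Subsingleton (Abelian.Ext.{0} (Z 0) (ModuleCat.of R R) i)) :
    Module.Projective R (Z 0) :=
  it_main (CMOn.base R hartR N G) hGf Z hZ hZf hd hAA hAR

theorem tach_it {R : Type} [CommRing R] {ω : ModuleCat.{0} R} {N : ℕ}
    {G : Fin N → ModuleCat.{0} R} (h : CanOn R ω N G) :
    ∀ [IsLocalRing R] [IsNoetherianRing R], (∀ a, Module.Finite R (G a)) →
      ∀ Z : ℕ → ModuleCat.{0} R, Z 0 = ω → Chain Z →
      Module.Finite R ω → (∀ m : ℕ, ∃ j : ℕ, m ≤ j ∧ TwoStep G (Z j)) →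
      (∀ i, 1 ≤ i → Subsingleton (Abelian.Ext.{0} ω (ModuleCat.of R R) i)) →
      Nonempty (ω ≃ₗ[R] R) := by
  induction h with
  | base R hartR ω hinj hnt hind N G =>
    intro _ _ hGf Z h0 hZ hZf hd hAR
    subst h0
    have hproj : Module.Projective R (Z 0) := by
      refine base_it hartR hGf Z hZ hZf hd (fun i hi => ?_) hAR
      obtain ⟨i, rfl⟩ : ∃ i', i = i' + 1 := ⟨i - 1, by omega⟩
      exact ez_injective hinj i
    have hfree : Module.Free R (Z 0) := Module.free_of_flat_of_isLocalRing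
    let b := Module.finBasis R (Z 0)
    have h4 := rank_one _ b.equivFun hnt hind
    exact ⟨(b.equivFun.trans (LinearEquiv.funCongrLeft R R (finCongr h4))).trans
      (LinearEquiv.funUnique (Fin 1) R R)⟩
  | step R x hx hu ω hω N G hG h ih =>
    intro hlocR hnoeR hGf Z h0 hZ hZf hd hAR
    subst h0
    have hφs : Function.Surjective (Ideal.Quotient.mk (Ideal.span {x})) :=
      Ideal.Quotient.mk_surjective
    have hφx : Ideal.Quotient.mk (Ideal.span {x}) x = 0 :=
      (mk_ker x x).mpr ⟨1, (mul_one x).symm⟩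
    have hItop : Ideal.span {x} ≠ ⊤ := by
      intro h
      exact hu (Ideal.span_singleton_eq_top.mp h)
    have hnt : Nontrivial (R ⧸ Ideal.span {x}) := Ideal.Quotient.nontrivial_iff.mpr hItop
    have hloc : IsLocalRing (R ⧸ Ideal.span {x}) :=
      IsLocalRing.of_surjective' (Ideal.Quotient.mk (Ideal.span {x})) hφs
    have hnoe : IsNoetherianRing (R ⧸ Ideal.span {x}) := inferInstance
    have hxR : Rg x R := hx
    choose P f g hPf hPp hS using hZ
    have hPr : ∀ j, Rg x (P j) := fun j => rg_proj hxR (hPf j) (hPp j)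
    have hZr : ∀ j, Rg x (Z j) := by
      intro j
      cases j with
      | zero => exact hω
      | succ j => exact rg_sub (f j) (hS j).1 (hPr j)
    let Z' : ℕ → ModuleCat.{0} (R ⧸ Ideal.span {x}) := fun j =>
      ModuleCat.of (R ⧸ Ideal.span {x}) (Z j ⧸ (Ideal.span {x} • ⊤ : Submodule R (Z j)))
    have hπ := fun j => quot_bar x (Z j)
    have hZ' : Chain Z' := by
      intro j
      obtain ⟨P', ρ, hρ⟩ := exists_bar x (P j)
      obtain ⟨f', hf'⟩ := ind hφs hφx (hπ (j + 1)) hρ (f j)
      obtain ⟨g', hg'⟩ := ind hφs hφx hρ (hπ j) (g j)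
      obtain ⟨h1, h2⟩ := bar_proj hφs (mk_ker x) hρ (hPf j) (hPp j)
      exact ⟨P', f', g', h1, h2, bar_ses (X' := Z' (j + 1)) (Z' := Z' j) (hπ (j + 1)) hρ (hπ j)
        _ _ (hS j) (hZr j) (hPr j) f' g' hf' hg'⟩
    have hZ'f : Module.Finite (R ⧸ Ideal.span {x}) (Z' 0) := by
      obtain ⟨n, a, ha⟩ := Module.Finite.exists_fin' R (Z 0)
      obtain ⟨a', ha'⟩ := bar_gen a ha (M' := Z' 0) (hπ 0)
      exact Module.Finite.of_surjective a' ha'
    have hG'f : ∀ a, Module.Finite (R ⧸ Ideal.span {x}) (ModuleCat.of (R ⧸ Ideal.span {x})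
        (G a ⧸ (Ideal.span {x} • ⊤ : Submodule R (G a)))) := by
      intro a
      have := hGf a
      obtain ⟨n, u, hu⟩ := Module.Finite.exists_fin' R (G a)
      obtain ⟨a', ha'⟩ := bar_gen (M' := ModuleCat.of (R ⧸ Ideal.span {x})
        (G a ⧸ (Ideal.span {x} • ⊤ : Submodule R (G a)))) u hu (quot_bar x (G a))
      exact Module.Finite.of_surjective a' ha'
    have hiso : Nonempty (Z' 0 ≃ₗ[R ⧸ Ideal.span {x}] (R ⧸ Ideal.span {x})) := by
      refine ih hG'f Z' rfl hZ' hZ'f ?_ ?_
      · intro m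
        obtain ⟨j, hj, hb⟩ := hd m
        exact ⟨j, hj, bar_two (Y' := Z' j) _ (fun a => quot_bar x (G a)) hG (hπ j) (hZr j) hb⟩
      · intro i hi
        obtain ⟨i, rfl⟩ : ∃ i', i = i' + 1 := ⟨i - 1, by omega⟩
        exact bar_ext (N := ModuleCat.of R R)
          (N' := ModuleCat.of (R ⧸ Ideal.span {x}) (R ⧸ Ideal.span {x})) hxR
          (bar_self hφs (mk_ker x)) hxR i (Z 0) (Z' 0) _ (hπ 0) hZf (hZr 0) hAR
    obtain ⟨e'⟩ := hiso
    have hproj' : Module.Projective (R ⧸ Ideal.span {x}) (Z' 0) :=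
      Module.Projective.of_equiv e'.symm
    have hproj : Module.Projective R (Z 0) := proj_of_bar hu hZf (hZr 0) (hπ 0) hproj'
    have hfree : Module.Free R (Z 0) := Module.free_of_flat_of_isLocalRing
    let b := Module.finBasis R (Z 0)
    have hpi := pi_bar (n := Module.finrank R (Z 0))
      (fun _ => (Ideal.Quotient.mk (Ideal.span {x})).toAddMonoidHom)
      (fun _ => bar_self hφs (mk_ker x))
    obtain ⟨e2⟩ := bar_iso (N' := Z' 0) hφs hφx (hπ 0) hpi b.equivFun
    have h1 : Module.finrank (R ⧸ Ideal.span {x}) (R ⧸ Ideal.span {x}) =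
        Module.finrank (R ⧸ Ideal.span {x})
          (Fin (Module.finrank R (Z 0)) → (R ⧸ Ideal.span {x})) :=
      (e'.symm.trans e2).finrank_eq
    rw [Module.finrank_self, Module.finrank_fin_fun] at h1
    exact ⟨(b.equivFun.trans (LinearEquiv.funCongrLeft R R (finCongr h1))).trans
      (LinearEquiv.funUnique (Fin 1) R R)⟩

end Pool.Agent.Helper426AR
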